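import Mathlib

/-!
# Labellings of subcubic graphs by the configuration with 18 points and 16 lines
-/

set_option autoImplicit false

namespace V11253.CP

/-- points: `(c, none)` is a plain label, `(c, some q)` a cycle label -/
abbrev Pt := Fin 3 × Option (Fin 5)

/-- types of vertices -/
abbrev Ty := Option (Fin 3 × Fin 5)

/-- the label `p` lies on the line of type `t` -/
def tri (t : Ty) (p : Pt) : Prop :=
  match t with
  | none => p.2 = none
  | some (c, q) => p.1 = c ∧ (p.2 = none ∨ p.2 = some q ∨ p.2 = some (q + 1))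

instance (t : Ty) (p : Pt) : Decidable (tri t p) := by
  unfold tri
  split <;> infer_instance

/-- labelling of a graph -/
structure Lab {V : Type} (K : SimpleGraph V) (l : V → V → Pt) (t : V → Ty) : Prop where
  sym : ∀ u v, K.Adj u v → l u v = l v u
  on : ∀ u v, K.Adj u v → tri (t u) (l u v)
  inj : ∀ u v w, K.Adj u v → K.Adj u w → l u v = l u w → v = w
  cyc : ∀ u c q, t u = some (c, q) →
    (∃ w, K.Adj u w ∧ l u w = (c, some q)) ∧ ∃ w, K.Adj u w ∧ l u w = (c, some (q + 1))

/-- the graph has a labelling -/
def HasLab {V : Type} (K : SimpleGraph V) : Prop := ∃ l t, Lab K l t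

/-- at most three neighbours -/
def Sub3 {V : Type} (K : SimpleGraph V) : Prop :=
  ∀ u a b c d, K.Adj u a → K.Adj u b → K.Adj u c → K.Adj u d →
    a = b ∨ a = c ∨ a = d ∨ b = c ∨ b = d ∨ c = d

end V11253.CP
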