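import Pool.Agent.V11253.CP.Base

/-!
# Adding a bridge
-/

set_option autoImplicit false

namespace V11253.CP

variable {V : Type}

/-- the action of a permutation of the three colours -/
def pm (s : Equiv.Perm (Fin 3)) (p : Pt) : Pt := (s p.1, p.2)

def tm (s : Equiv.Perm (Fin 3)) (t : Ty) : Ty := t.map fun x => (s x.1, x.2)

lemma qne : ∀ q : Fin 5, q ≠ q + 1 := by decide

lemma pm_inj (s : Equiv.Perm (Fin 3)) {p q : Pt} (h : pm s p = pm s q) : p = q := by
  unfold pm at h
  rw [Prod.mk.injEq] at h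
  exact Prod.ext (s.injective h.1) h.2

lemma tri_pm (s : Equiv.Perm (Fin 3)) {t : Ty} {p : Pt} (h : tri t p) : tri (tm s t) (pm s p) := by
  cases t with
  | none => exact h
  | some x =>
    obtain ⟨c, q⟩ := x
    obtain ⟨h1, h2⟩ := h
    exact ⟨by rw [← h1]; rfl, h2⟩

/-- a vertex with at most two neighbours has a free plain label -/
lemma free {K : SimpleGraph V} {l : V → V → Pt} {t : V → Ty} (h : Lab K l t) (a : V)
    (h2 : ∀ x y z, K.Adj a x → K.Adj a y → K.Adj a z → x = y ∨ x = z ∨ y = z) :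
    ∃ c : Fin 3, tri (t a) (c, none) ∧ ∀ w, K.Adj a w → l a w ≠ (c, none) := by
  classical
  rcases ht : t a with _ | ⟨c, q⟩
  · by_contra hcon
    push Not at hcon
    have h3 : ∀ c : Fin 3, ∃ w, K.Adj a w ∧ l a w = (c, none) := fun c => hcon c rfl
    obtain ⟨x, hx, hx'⟩ := h3 0
    obtain ⟨y, hy, hy'⟩ := h3 1
    obtain ⟨z, hz, hz'⟩ := h3 2
    rcases h2 x y z hx hy hz with rfl | rfl | rfl
    · rw [hx'] at hy'; exact absurd hy' (by decide)
    · rw [hx'] at hz'; exact absurd hz' (by decide)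
    · rw [hy'] at hz'; exact absurd hz' (by decide)
  · obtain ⟨⟨x, hx, hx'⟩, y, hy, hy'⟩ := h.cyc a c q ht
    refine ⟨c, ⟨rfl, Or.inl rfl⟩, ?_⟩
    intro w hw hw'
    have hq : q ≠ q + 1 := qne q
    rcases h2 x y w hx hy hw with rfl | rfl | rfl
    · rw [hx', Prod.mk.injEq] at hy'
      exact hq (Option.some.inj hy'.2)
    · rw [hx', Prod.mk.injEq] at hw'
      exact absurd hw'.2 (by simp)
    · rw [hy', Prod.mk.injEq] at hw'
      exact absurd hw'.2 (by simp)

theorem bridge {K : SimpleGraph V} {a b : V} (hab : K.Adj a b) (h3 : Sub3 K)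
    (hb : ¬ (K.deleteEdges {s(a, b)}).Reachable a b)
    (h : HasLab (K.deleteEdges {s(a, b)})) : HasLab K := by
  classical
  obtain ⟨l, t, hl⟩ := h
  set K' := K.deleteEdges {s(a, b)} with hK'
  have hadj : ∀ u v, K'.Adj u v ↔ K.Adj u v ∧ s(u, v) ≠ s(a, b) := by
    intro u v
    rw [hK', SimpleGraph.deleteEdges_adj, Set.mem_singleton_iff]
  have hne : a ≠ b := hab.ne
  have hfa : ∀ x y z, K'.Adj a x → K'.Adj a y → K'.Adj a z → x = y ∨ x = z ∨ y = z := by
    intro x y z hx hy hz
    have hxb : x ≠ b := fun h => ((hadj _ _).1 hx).2 (by rw [h])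
    have hyb : y ≠ b := fun h => ((hadj _ _).1 hy).2 (by rw [h])
    have hzb : z ≠ b := fun h => ((hadj _ _).1 hz).2 (by rw [h])
    rcases h3 a x y z b ((hadj _ _).1 hx).1 ((hadj _ _).1 hy).1 ((hadj _ _).1 hz).1 hab with
      h | h | h | h | h | h
    · exact Or.inl h
    · exact Or.inr (Or.inl h)
    · exact absurd h hxb
    · exact Or.inr (Or.inr h)
    · exact absurd h hyb
    · exact absurd h hzb
  have hfb : ∀ x y z, K'.Adj b x → K'.Adj b y → K'.Adj b z → x = y ∨ x = z ∨ y = z := by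
    intro x y z hx hy hz
    have hxb : x ≠ a := fun h => ((hadj _ _).1 hx).2 (by rw [h]; exact Sym2.eq_swap)
    have hyb : y ≠ a := fun h => ((hadj _ _).1 hy).2 (by rw [h]; exact Sym2.eq_swap)
    have hzb : z ≠ a := fun h => ((hadj _ _).1 hz).2 (by rw [h]; exact Sym2.eq_swap)
    rcases h3 b x y z a ((hadj _ _).1 hx).1 ((hadj _ _).1 hy).1 ((hadj _ _).1 hz).1 hab.symm with
      h | h | h | h | h | h
    · exact Or.inl h
    · exact Or.inr (Or.inl h)
    · exact absurd h hxb
    · exact Or.inr (Or.inr h)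
    · exact absurd h hyb
    · exact absurd h hzb
  obtain ⟨ca, hca1, hca2⟩ := free hl a hfa
  obtain ⟨cb, hcb1, hcb2⟩ := free hl b hfb
  let s : Equiv.Perm (Fin 3) := Equiv.swap cb ca
  have hs : s cb = ca := Equiv.swap_apply_left _ _
  let R : V → Prop := fun v => K'.Reachable b v
  have hRb : R b := SimpleGraph.Reachable.refl b
  have hRa : ¬ R a := fun h => hb h.symm
  have hR : ∀ u v, K'.Adj u v → (R u ↔ R v) := fun u v huv =>
    ⟨fun h => h.trans huv.reachable, fun h => h.trans huv.symm.reachable⟩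
  let l' : V → V → Pt := fun u v =>
    if s(u, v) = s(a, b) then (ca, none) else if R u then pm s (l u v) else l u v
  let t' : V → Ty := fun u => if R u then tm s (t u) else t u
  have hlab : l' a b = (ca, none) := by simp [l']
  have hlba : l' b a = (ca, none) := by simp [l']
  have hl' : ∀ u v, K'.Adj u v → l' u v = if R u then pm s (l u v) else l u v := by
    intro u v huv
    have := ((hadj _ _).1 huv).2
    simp only [l', this, if_false]
  have hcase : ∀ u v, K.Adj u v → (u = a ∧ v = b) ∨ (u = b ∧ v = a) ∨ K'.Adj u v := by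
    intro u v huv
    by_cases h : s(u, v) = s(a, b)
    · rcases Sym2.eq_iff.1 h with h | h
      · exact Or.inl h
      · exact Or.inr (Or.inl h)
    · exact Or.inr (Or.inr ((hadj _ _).2 ⟨huv, h⟩))
  have hle : ∀ u v, K'.Adj u v → K.Adj u v := fun u v h => ((hadj _ _).1 h).1
  refine ⟨l', t', ?_, ?_, ?_, ?_⟩
  · intro u v huv
    rcases hcase u v huv with ⟨rfl, rfl⟩ | ⟨rfl, rfl⟩ | h
    · rw [hlab, hlba]
    · rw [hlab, hlba]
    · rw [hl' _ _ h, hl' _ _ h.symm, hl.sym _ _ h]
      by_cases hu : R u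
      · rw [if_pos hu, if_pos ((hR _ _ h).1 hu)]
      · rw [if_neg hu, if_neg (fun hv => hu ((hR _ _ h).2 hv))]
  · intro u v huv
    rcases hcase u v huv with ⟨rfl, rfl⟩ | ⟨rfl, rfl⟩ | h
    · rw [hlab]
      simp only [t', hRa, if_false]
      exact hca1
    · rw [hlba]
      simp only [t', hRb, if_true]
      have := tri_pm s hcb1
      unfold pm at this
      simpa only [hs] using this
    · rw [hl' _ _ h]
      by_cases hu : R u
      · simp only [t', hu, if_true]
        exact tri_pm s (hl.on _ _ h)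
      · simp only [t', hu, if_false]
        exact hl.on _ _ h
  · intro u v w huv huw he
    rcases hcase u v huv with ⟨rfl, rfl⟩ | ⟨rfl, rfl⟩ | h
    · rcases hcase _ w huw with ⟨_, rfl⟩ | ⟨h1, _⟩ | h'
      · rfl
      · exact absurd h1 hne
      · rw [hlab, hl' _ _ h', if_neg hRa] at he
        exact absurd he.symm (hca2 _ h')
    · rcases hcase _ w huw with ⟨h1, _⟩ | ⟨_, rfl⟩ | h'
      · exact absurd h1 hne.symm
      · rfl
      · rw [hlba, hl' _ _ h', if_pos hRb] at he
        exfalso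
        apply hcb2 _ h'
        apply pm_inj s
        rw [← he]
        unfold pm
        simp only [hs]
    · rcases hcase _ w huw with ⟨rfl, rfl⟩ | ⟨rfl, rfl⟩ | h'
      · rw [hlab, hl' _ _ h, if_neg hRa] at he
        exact absurd he (hca2 _ h)
      · rw [hlba, hl' _ _ h, if_pos hRb] at he
        exfalso
        apply hcb2 _ h
        apply pm_inj s
        rw [he]
        unfold pm
        simp only [hs]
      · rw [hl' _ _ h, hl' _ _ h'] at he
        by_cases hu : R u
        · rw [if_pos hu, if_pos hu] at he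
          exact hl.inj _ _ _ h h' (pm_inj s he)
        · rw [if_neg hu, if_neg hu] at he
          exact hl.inj _ _ _ h h' he
  · intro u c q hu
    by_cases hRu : R u
    · simp only [t', hRu, if_true] at hu
      unfold tm at hu
      rw [Option.map_eq_some_iff] at hu
      obtain ⟨⟨c0, q0⟩, h1, h2⟩ := hu
      simp only [Prod.mk.injEq] at h2
      obtain ⟨rfl, rfl⟩ := h2
      obtain ⟨⟨x, hx, hx'⟩, y, hy, hy'⟩ := hl.cyc u c0 q0 h1
      refine ⟨⟨x, hle _ _ hx, ?_⟩, y, hle _ _ hy, ?_⟩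
      · rw [hl' _ _ hx, if_pos hRu, hx']; rfl
      · rw [hl' _ _ hy, if_pos hRu, hy']; rfl
    · simp only [t', hRu, if_false] at hu
      obtain ⟨⟨x, hx, hx'⟩, y, hy, hy'⟩ := hl.cyc u c q hu
      refine ⟨⟨x, hle _ _ hx, ?_⟩, y, hle _ _ hy, ?_⟩
      · rw [hl' _ _ hx, if_neg hRu, hx']
      · rw [hl' _ _ hy, if_neg hRu, hy']

end V11253.CP
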