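import Pool.Agent.V11253.CP.Base

/-!
# Labelling graphs of maximum degree two without triangles
-/

set_option autoImplicit false

namespace V11253.CP

variable {V : Type}

/-- at most two neighbours -/
def D2 (H : SimpleGraph V) : Prop :=
  ∀ u x y z, H.Adj u x → H.Adj u y → H.Adj u z → x = y ∨ x = z ∨ y = z

lemma pred_dist {L : SimpleGraph V} {p x : V} {n : ℕ} (hr : L.Reachable p x)
    (h : L.dist p x = n + 1) : ∃ y, L.Adj x y ∧ L.Reachable p y ∧ L.dist p y = n := by
  obtain ⟨w, hw⟩ := hr.symm.exists_walk_length_eq_dist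
  rw [SimpleGraph.dist_comm, h] at hw
  cases w with
  | nil => simp at hw
  | @cons _ y _ hadj w' =>
    rw [SimpleGraph.Walk.length_cons] at hw
    refine ⟨y, hadj, w'.reachable.symm, ?_⟩
    have h1 : L.dist y p ≤ w'.length := SimpleGraph.dist_le w'
    rw [SimpleGraph.dist_comm] at h1
    have h2 := hadj.symm.diff_dist_adj (u := p)
    omega

lemma dist_inj {L : SimpleGraph V} (h2 : D2 L) {p : V}
    (hp : ∀ x y, L.Adj p x → L.Adj p y → x = y) : ∀ n x y, L.Reachable p x → L.Reachable p y →
    L.dist p x = n → L.dist p y = n → x = y := by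
  intro n
  induction n with
  | zero =>
    intro x y hx hy h1 h3
    rw [hx.dist_eq_zero_iff] at h1
    rw [hy.dist_eq_zero_iff] at h3
    rw [← h1, ← h3]
  | succ n ih =>
    intro x y hx hy h1 h3
    obtain ⟨x', a1, a2, a3⟩ := pred_dist hx h1
    obtain ⟨y', b1, b2, b3⟩ := pred_dist hy h3
    have := ih x' y' a2 b2 a3 b3
    subst this
    cases n with
    | zero =>
      rw [a2.dist_eq_zero_iff] at a3
      subst a3
      exact hp _ _ a1.symm b1.symm
    | succ m =>
      obtain ⟨z, c1, c2, c3⟩ := pred_dist a2 a3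
      rcases h2 x' x y z a1.symm b1.symm c1 with h | h | h
      · exact h
      · subst h; omega
      · subst h; omega

/-- the labelling is fine at `u` -/
structure Ok (H : SimpleGraph V) (g : V → V → Pt) (t : V → Ty) (u : V) : Prop where
  sym : ∀ v, H.Adj u v → g u v = g v u
  on : ∀ v, H.Adj u v → tri (t u) (g u v)
  ne : ∀ v, H.Adj u v → g u v ≠ (2, none)
  inj : ∀ v w, H.Adj u v → H.Adj u w → g u v = g u w → v = w
  two : tri (t u) (2, none)
  cyc : ∀ c q, t u = some (c, q) →
    (∃ w, H.Adj u w ∧ g u w = (c, some q)) ∧ ∃ w, H.Adj u w ∧ g u w = (c, some (q + 1))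

def pl (n : ℕ) : Pt := if n % 2 = 0 then (0, none) else (1, none)

lemma pl_ne (n : ℕ) : pl n ≠ (2, none) := by
  unfold pl
  split_ifs <;> decide

lemma pl_tri (n : ℕ) : tri none (pl n) := by
  unfold pl
  split_ifs <;> rfl

lemma pl_inj {m n : ℕ} (h : pl m = pl n) : m % 2 = n % 2 := by
  unfold pl at h
  split_ifs at h with h1 h2 h2
  · omega
  · exact absurd h (by decide)
  · exact absurd h (by decide)
  · omega

lemma path_case {H : SimpleGraph V} (h2 : D2 H) {p : V}
    (hp : ∀ x y, H.Adj p x → H.Adj p y → x = y) :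
    ∃ g t, ∀ u, H.Reachable p u → Ok H g t u := by
  refine ⟨fun u v => pl (min (H.dist p u) (H.dist p v)), fun _ => none, fun u hu =>
    ⟨?_, fun v _ => pl_tri _, fun v _ => pl_ne _, ?_, rfl, ?_⟩⟩
  · intro v _
    simp only [min_comm]
  · intro v w hv hw he
    by_contra hvw
    have he := pl_inj he
    have rv := hu.trans hv.reachable
    have rw' := hu.trans hw.reachable
    have d1 : H.dist p v ≠ H.dist p w := fun h => hvw (dist_inj h2 hp _ _ _ rv rw' rfl h.symm)
    have d2 : H.dist p u ≠ H.dist p w := fun h => hw.ne (dist_inj h2 hp _ _ _ hu rw' rfl h.symm)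
    have d3 : H.dist p u ≠ H.dist p v := fun h => hv.ne (dist_inj h2 hp _ _ _ hu rv rfl h.symm)
    have e1 := hv.diff_dist_adj (u := p)
    have e2 := hw.diff_dist_adj (u := p)
    omega
  · intro c q h
    exact absurd h (by simp)

def prv (n i : ℕ) : ℕ := if i = 0 then n else i - 1

def om (n j : ℕ) : Fin 5 :=
  if j = n then 4 else if j = n - 1 then 3 else if j = n - 2 then 2 else if j % 2 = 0 then 0 else 1

def qf (n i : ℕ) : Fin 5 :=
  if i = 0 then 4 else if i = n then 3 else if i = n - 1 then 2 else if i = n - 2 then 1 else 0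

lemma om_qf {n i : ℕ} (hn : n % 2 = 0) (h4 : 4 ≤ n) (hi : i ≤ n) :
    (om n i = qf n i ∧ om n (prv n i) = qf n i + 1) ∨
      (om n i = qf n i + 1 ∧ om n (prv n i) = qf n i) := by
  unfold om qf prv
  split_ifs <;> first | (exfalso; omega) | decide

lemma q_ne : ∀ q : Fin 5, q ≠ q + 1 := by decide

theorem cyc_case [Finite V] {H : SimpleGraph V} (h2 : D2 H)
    (htri : ∀ x y z, H.Adj x y → H.Adj y z → H.Adj x z → False) (r : V)
    (hall : ∀ u, H.Reachable r u → ∃ x y, H.Adj u x ∧ H.Adj u y ∧ x ≠ y) :
    ∃ g t, ∀ u, H.Reachable r u → Ok H g t u := by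
  classical
  obtain ⟨r1, r2, hr1, hr2, hr12⟩ := hall r (SimpleGraph.Reachable.refl r)
  set L := H.deleteEdges {s(r, r1)} with hLdef
  have hL : ∀ u v, L.Adj u v ↔ H.Adj u v ∧ s(u, v) ≠ s(r, r1) := by
    intro u v
    rw [hLdef, SimpleGraph.deleteEdges_adj, Set.mem_singleton_iff]
  have hLH : ∀ u v, L.Adj u v → H.Adj u v := fun u v h => ((hL _ _).1 h).1
  have hL2 : D2 L := fun u x y z hx hy hz => h2 u x y z (hLH _ _ hx) (hLH _ _ hy) (hLH _ _ hz)
  have hp : ∀ x y, L.Adj r x → L.Adj r y → x = y := by
    intro x y hx hy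
    rcases h2 r x y r1 (hLH _ _ hx) (hLH _ _ hy) hr1 with h | h | h
    · exact h
    · subst h; exact absurd rfl ((hL _ _).1 hx).2
    · subst h; exact absurd rfl ((hL _ _).1 hy).2
  have dinj : ∀ x y, L.Reachable r x → L.Reachable r y → L.dist r x = L.dist r y → x = y :=
    fun x y hx hy h => dist_inj hL2 hp _ _ _ hx hy rfl h.symm
  have hrr2 : L.Adj r r2 := by
    rw [hL]
    refine ⟨hr2, fun h => ?_⟩
    rcases Sym2.eq_iff.1 h with ⟨_, h⟩ | ⟨h, _⟩
    · exact hr12 h.symm
    · exact hr1.ne h
  have hstep : ∀ u v w, L.Reachable r u → L.Adj u v → L.Adj u w → v ≠ w →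
      (L.dist r v = L.dist r u + 1 ∧ L.dist r w + 1 = L.dist r u) ∨
        (L.dist r v + 1 = L.dist r u ∧ L.dist r w = L.dist r u + 1) := by
    intro u v w hu hv hw hvw
    have rv := hu.trans hv.reachable
    have rw' := hu.trans hw.reachable
    have d1 : L.dist r v ≠ L.dist r w := fun h => hvw (dinj _ _ rv rw' h)
    have d2 : L.dist r u ≠ L.dist r w := fun h => hw.ne (dinj _ _ hu rw' h)
    have d3 : L.dist r u ≠ L.dist r v := fun h => hv.ne (dinj _ _ hu rv h)
    have e1 := hv.diff_dist_adj (u := r)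
    have e2 := hw.diff_dist_adj (u := r)
    omega
  obtain ⟨m, hm, hmax⟩ := Set.exists_max_image {v | L.Reachable r v} (fun v => L.dist r v)
    (Set.toFinite _) ⟨r, SimpleGraph.Reachable.refl r⟩
  have hd2 : L.dist r r2 = 1 := SimpleGraph.dist_eq_one_iff_adj.2 hrr2
  have hm1 : 1 ≤ L.dist r m := by
    have := hmax r2 hrr2.reachable
    omega
  have hLr : ∀ a b, H.Walk a b → L.Reachable r r1 → L.Reachable r a → L.Reachable r b := by
    intro a b w
    induction w with
    | nil => intro _ h; exact h
    | @cons a c b hac w ih =>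
      intro h1 h3
      apply ih h1
      by_cases h : s(a, c) = s(r, r1)
      · rcases Sym2.eq_iff.1 h with ⟨_, h⟩ | ⟨_, h⟩
        · rw [h]; exact h1
        · rw [h]
      · exact h3.trans ((hL _ _).2 ⟨hac, h⟩).reachable
  have hmH : H.Reachable r m := by
    have hle : L ≤ H := fun u v h => hLH u v h
    exact (show L.Reachable r m from hm).mono hle
  have hmr : m = r1 := by
    by_contra hne
    obtain ⟨x, y, hx, hy, hxy⟩ := hall m hmH
    have hmr0 : m ≠ r := by
      rintro rfl
      rw [SimpleGraph.dist_self] at hm1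
      omega
    have hin : ∀ z, H.Adj m z → L.Adj m z := by
      intro z hz
      rw [hL]
      refine ⟨hz, fun h => ?_⟩
      rcases Sym2.eq_iff.1 h with ⟨h, _⟩ | ⟨h, _⟩
      · exact hmr0 h
      · exact hne h
    have h1 := hmax x ((show L.Reachable r m from hm).trans (hin x hx).reachable)
    have h3 := hmax y ((show L.Reachable r m from hm).trans (hin y hy).reachable)
    rcases hstep m x y hm (hin x hx) (hin y hy) hxy with h | h <;> omega
  subst hmr
  set n := L.dist r m with hn
  have hreach : ∀ u, H.Reachable r u → L.Reachable r u := by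
    rintro u ⟨w⟩
    exact hLr r u w hm (SimpleGraph.Reachable.refl r)
  have hle : ∀ u, L.Reachable r u → L.dist r u ≤ n := fun u hu => hmax u hu
  have hnadj : ¬ L.Adj r m := fun h => ((hL _ _).1 h).2 rfl
  have hn1 : n ≠ 1 := fun h => hnadj (SimpleGraph.dist_eq_one_iff_adj.1 h)
  have hn2 : n ≠ 2 := by
    intro h
    obtain ⟨y, h1, _, h3⟩ := pred_dist (n := 1) hm h
    have h4 := SimpleGraph.dist_eq_one_iff_adj.1 h3
    exact htri r y m (hLH _ _ h4) (hLH _ _ h1.symm) hr1
  let idx : V → V → ℕ := fun u v =>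
    if s(u, v) = s(r, m) then n else min (L.dist r u) (L.dist r v)
  have idx1 : ∀ u v, s(u, v) = s(r, m) → idx u v = n := fun u v h => by simp only [idx, h, if_true]
  have idx2 : ∀ u v, s(u, v) ≠ s(r, m) → idx u v = min (L.dist r u) (L.dist r v) :=
    fun u v h => by simp only [idx, h, if_false]
  have idxs : ∀ u v, idx u v = idx v u := by
    intro u v
    by_cases h : s(u, v) = s(r, m)
    · rw [idx1 _ _ h, idx1 _ _ (by rw [Sym2.eq_swap, h])]
    · rw [idx2 _ _ h, idx2 _ _ (by rw [Sym2.eq_swap]; exact h), min_comm]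
  have hval : ∀ u v, L.Reachable r u → H.Adj u v →
      idx u v = L.dist r u ∨ idx u v = prv n (L.dist r u) := by
    intro u v hu huv
    by_cases h : s(u, v) = s(r, m)
    · rw [idx1 _ _ h]
      rcases Sym2.eq_iff.1 h with ⟨h, _⟩ | ⟨h, _⟩
      · right
        rw [h, SimpleGraph.dist_self]; rfl
      · left
        rw [h]
    · rw [idx2 _ _ h]
      have hadj := (hL _ _).2 ⟨huv, h⟩
      have rv := hu.trans hadj.reachable
      have d3 : L.dist r u ≠ L.dist r v := fun h => huv.ne (dinj _ _ hu rv h)
      have e1 := hadj.diff_dist_adj (u := r)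
      unfold prv
      split_ifs <;> omega
  have hdis : ∀ u v w, L.Reachable r u → H.Adj u v → H.Adj u w → v ≠ w → idx u v ≠ idx u w := by
    have key : ∀ u v w, L.Reachable r u → H.Adj u v → H.Adj u w → v ≠ w → s(u, v) = s(r, m) →
        idx u v ≠ idx u w := by
      intro u v w hu hv hw hvw h
      have h' : s(u, w) ≠ s(r, m) := by
        intro h'
        rw [← h'] at h
        rcases Sym2.eq_iff.1 h with ⟨_, h⟩ | ⟨h, _⟩
        · exact hvw h
        · exact hw.ne h
      rw [idx1 _ _ h, idx2 _ _ h']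
      have hadj := (hL _ _).2 ⟨hw, h'⟩
      have rw' := hu.trans hadj.reachable
      have h5 := hle w rw'
      have h6 := hle u hu
      have d2 : L.dist r u ≠ L.dist r w := fun h => hw.ne (dinj _ _ hu rw' h)
      omega
    intro u v w hu hv hw hvw
    by_cases h : s(u, v) = s(r, m)
    · exact key u v w hu hv hw hvw h
    · by_cases h' : s(u, w) = s(r, m)
      · exact (key u w v hu hw hv hvw.symm h').symm
      · rw [idx2 _ _ h, idx2 _ _ h']
        rcases hstep u v w hu ((hL _ _).2 ⟨hv, h⟩) ((hL _ _).2 ⟨hw, h'⟩) hvw with h | h <;> omega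
  have hn3 : 3 ≤ n := by omega
  rcases Nat.mod_two_eq_zero_or_one n with hpar | hpar
  · have hn4 : 4 ≤ n := by omega
    refine ⟨fun u v => (2, some (om n (idx u v))), fun u => some (2, qf n (L.dist r u)),
      fun u hu => ?_⟩
    have hu := hreach u hu
    have hq := om_qf hpar hn4 (hle u hu)
    have hqn := q_ne (qf n (L.dist r u))
    refine ⟨?_, ?_, ?_, ?_, ⟨rfl, Or.inl rfl⟩, ?_⟩
    · intro v _
      simp only [idxs u v]
    · intro v hv
      refine ⟨rfl, Or.inr ?_⟩
      rcases hval u v hu hv with h | h <;> rw [h] <;> rcases hq with hq | hq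
      · exact Or.inl (by rw [hq.1])
      · exact Or.inr (by rw [hq.1])
      · exact Or.inr (by rw [hq.2])
      · exact Or.inl (by rw [hq.2])
    · intro v _ h
      rw [Prod.mk.injEq] at h
      exact absurd h.2 (by simp)
    · intro v w hv hw he
      by_contra hvw
      have hd := hdis u v w hu hv hw hvw
      simp only [Prod.mk.injEq, true_and, Option.some.injEq] at he
      rcases hval u v hu hv with h | h <;> rcases hval u w hu hw with h' | h' <;>
        rw [h, h'] at he <;> rw [h, h'] at hd
      · exact hd rfl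
      · rcases hq with hq | hq
        · rw [hq.1, hq.2] at he; exact hqn he
        · rw [hq.1, hq.2] at he; exact hqn he.symm
      · rcases hq with hq | hq
        · rw [hq.1, hq.2] at he; exact hqn he.symm
        · rw [hq.1, hq.2] at he; exact hqn he
      · exact hd rfl
    · intro c q h
      obtain ⟨rfl, rfl⟩ := Prod.mk.inj (Option.some.inj h)
      have hH : H.Reachable r u := hu.mono (fun a b h => hLH a b h)
      obtain ⟨x, y, hx, hy, hxy⟩ := hall u hH
      have hd := hdis u x y hu hx hy hxy
      have hex : ∃ x y, H.Adj u x ∧ H.Adj u y ∧ idx u x = L.dist r u ∧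
          idx u y = prv n (L.dist r u) := by
        rcases hval u x hu hx with h | h <;> rcases hval u y hu hy with h' | h'
        · exact absurd (h.trans h'.symm) hd
        · exact ⟨x, y, hx, hy, h, h'⟩
        · exact ⟨y, x, hy, hx, h', h⟩
        · exact absurd (h.trans h'.symm) hd
      obtain ⟨x, y, hx, hy, h1, h3⟩ := hex
      rcases hq with hq | hq
      · exact ⟨⟨x, hx, by simp only [h1, hq.1]⟩, y, hy, by simp only [h3, hq.2]⟩
      · exact ⟨⟨y, hy, by simp only [h3, hq.2]⟩, x, hx, by simp only [h1, hq.1]⟩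
  · refine ⟨fun u v => pl (idx u v), fun _ => none, fun u hu => ?_⟩
    have hu := hreach u hu
    refine ⟨?_, fun v _ => pl_tri _, fun v _ => pl_ne _, ?_, rfl, ?_⟩
    · intro v _
      simp only [idxs u v]
    · intro v w hv hw he
      by_contra hvw
      have hd := hdis u v w hu hv hw hvw
      have he := pl_inj he
      have hl := hle u hu
      have hpv : prv n (L.dist r u) = n ∧ L.dist r u = 0 ∨
          prv n (L.dist r u) + 1 = L.dist r u := by
        unfold prv
        split_ifs <;> omega
      rcases hval u v hu hv with h | h <;> rcases hval u w hu hw with h' | h' <;>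
        rw [h, h'] at he <;> rw [h, h'] at hd <;> omega
    · intro c q h
      exact absurd h (by simp)

end V11253.CP
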