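import Pool.Agent.V11253.CP.Base
import Pool.Agent.H467R2.Aug.PA

/-!
# A matching covering all vertices of degree three of a bridgeless subcubic graph
-/

set_option autoImplicit false

namespace V11253.CP

open Finset

variable {V : Type}

lemma card_le_three [Fintype V] [DecidableEq V] {K : SimpleGraph V} [DecidableRel K.Adj]
    (h3 : Sub3 K) (v : V) : (univ.filter (K.Adj v)).card ≤ 3 := by
  by_contra hcon
  have h4 : Fintype.card (Fin 4) ≤ Fintype.card (univ.filter (K.Adj v)) := by
    rw [Fintype.card_fin, Fintype.card_coe]; omega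
  obtain ⟨f⟩ := Function.Embedding.nonempty_of_card_le h4
  have ha : ∀ i, K.Adj v (f i).1 := fun i => (mem_filter.1 (f i).2).2
  have hi : ∀ i j, (f i).1 = (f j).1 → i = j := fun i j h => f.injective (Subtype.ext h)
  rcases h3 v _ _ _ _ (ha 0) (ha 1) (ha 2) (ha 3) with h | h | h | h | h | h
  all_goals exact absurd (hi _ _ h) (by decide)

/-- three distinct neighbours -/
def D3 (K : SimpleGraph V) (v : V) : Prop :=
  ∃ x y z, K.Adj v x ∧ K.Adj v y ∧ K.Adj v z ∧ x ≠ y ∧ x ≠ z ∧ y ≠ z

lemma card_eq_three [Fintype V] [DecidableEq V] {K : SimpleGraph V} [DecidableRel K.Adj]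
    (h3 : Sub3 K) {v : V} (h : D3 K v) : (univ.filter (K.Adj v)).card = 3 := by
  apply le_antisymm (card_le_three h3 v)
  obtain ⟨x, y, z, hx, hy, hz, hxy, hxz, hyz⟩ := h
  have h1 : ({x, y, z} : Finset V) ⊆ univ.filter (K.Adj v) := by
    intro w hw
    simp only [mem_insert, mem_singleton] at hw
    rw [mem_filter]
    rcases hw with rfl | rfl | rfl
    · exact ⟨mem_univ _, hx⟩
    · exact ⟨mem_univ _, hy⟩
    · exact ⟨mem_univ _, hz⟩
  calc 3 = ({x, y, z} : Finset V).card := by
        rw [card_insert_of_notMem (by simp [hxy, hxz]), card_insert_of_notMem (by simp [hyz]),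
          card_singleton]
    _ ≤ _ := card_le_card h1

theorem cover [Fintype V] (K : SimpleGraph V) (h3 : Sub3 K)
    (hb : ∀ a b, K.Adj a b → (K.deleteEdges {s(a, b)}).Reachable a b) :
    ∃ M : SimpleGraph V, (∀ u v w, M.Adj u v → M.Adj u w → v = w) ∧ M ≤ K ∧
      ∀ v, D3 K v → ∃ w, M.Adj v w := by
  classical
  by_contra hcon
  obtain ⟨S, F, hSF, hF1, hF2⟩ := H467Aug.t_PA V K {v | D3 K v} (fun ⟨M, h1, h2, h4⟩ =>
    hcon ⟨M, h1, h2, fun v hv => h4 v hv⟩)
  let E : Set V → Finset (V × V) := fun C =>
    univ.filter fun p => p.1 ∈ C ∧ p.2 ∈ S ∧ K.Adj p.1 p.2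
  have hE3 : ∀ C ∈ F, 3 ≤ (E C).card := by
    intro C hC
    obtain ⟨hCU, hCS, hodd, hnb⟩ := hF1 C hC
    let KC : SimpleGraph V :=
      { Adj := fun u v => K.Adj u v ∧ u ∈ C ∧ v ∈ C
        symm := ⟨fun u v h => ⟨h.1.symm, h.2.2, h.2.1⟩⟩
        loopless := ⟨fun u h => K.loopless.irrefl u h.1⟩ }
    have hCf : (univ.filter (· ∈ C)).card = C.ncard := by
      rw [Set.ncard_eq_toFinset_card', Set.toFinset_card, Fintype.card_subtype]
    have hhand := KC.sum_degrees_eq_twice_card_edges
    have hdeg : ∀ v, KC.degree v = (univ.filter fun w => K.Adj v w ∧ v ∈ C ∧ w ∈ C).card := by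
      intro v
      rw [← SimpleGraph.card_neighborFinset_eq_degree]
      congr 1
      ext w
      rw [SimpleGraph.mem_neighborFinset, mem_filter]
      simp [KC]
    have hEc : (E C).card = ∑ v, (univ.filter fun w => v ∈ C ∧ w ∈ S ∧ K.Adj v w).card := by
      rw [card_eq_sum_card_fiberwise (f := Prod.fst) (t := univ) (by intro x _; simp)]
      refine sum_congr rfl fun v _ => ?_
      rw [← card_map (⟨fun w => (v, w), fun a b h => (Prod.mk.inj h).2⟩ : V ↪ V × V)]
      congr 1
      ext ⟨x, y⟩
      simp only [E, mem_filter, mem_univ, true_and, mem_map, Function.Embedding.coeFn_mk,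
        Prod.mk.injEq]
      constructor
      · rintro ⟨h, rfl⟩
        exact ⟨y, h, rfl, rfl⟩
      · rintro ⟨w, h, rfl, rfl⟩
        exact ⟨h, rfl⟩
    have hsplit : ∀ v, (if v ∈ C then 3 else 0) = KC.degree v +
        (univ.filter fun w => v ∈ C ∧ w ∈ S ∧ K.Adj v w).card := by
      intro v
      rw [hdeg]
      by_cases hv : v ∈ C
      · rw [if_pos hv, ← card_eq_three h3 (hCU hv), ← card_union_of_disjoint]
        · congr 1
          ext w
          simp only [mem_filter, mem_univ, true_and, mem_union, hv]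
          constructor
          · intro h
            rcases hnb v hv w h with h' | h'
            · exact Or.inl ⟨h, h'⟩
            · exact Or.inr ⟨h', h⟩
          · rintro (h | h)
            · exact h.1
            · exact h.2
        · rw [disjoint_left]
          intro w hw hw'
          rw [mem_filter] at hw hw'
          exact Set.disjoint_left.1 hCS hw.2.2.2 hw'.2.2.1
      · simp [hv]
    have hsum : 3 * C.ncard = 2 * KC.edgeFinset.card + (E C).card := by
      rw [hEc, ← hhand, ← sum_add_distrib, ← hCf, ← sum_congr rfl (fun v _ => hsplit v),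
        ← sum_filter, sum_const, smul_eq_mul, mul_comm]
    obtain ⟨k, hk⟩ := hodd
    by_contra hlt
    have hone : (E C).card = 1 := by omega
    obtain ⟨⟨v, w⟩, hvw⟩ := card_eq_one.1 hone
    have hmem : (v, w) ∈ E C := by rw [hvw]; exact mem_singleton_self _
    have hm := (mem_filter.1 hmem).2
    simp only at hm
    obtain ⟨p⟩ := hb v w hm.2.2
    have hwC : w ∉ C := fun h => Set.disjoint_left.1 hCS h hm.2.1
    obtain ⟨d, _, hd1, hd2⟩ := p.exists_boundary_dart C hm.1 hwC
    have hd := d.adj
    rw [SimpleGraph.deleteEdges_adj, Set.mem_singleton_iff] at hd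
    have hdS : d.snd ∈ S := by
      rcases hnb _ hd1 _ hd.1 with h | h
      · exact absurd h hd2
      · exact h
    have : (d.fst, d.snd) ∈ E C := by
      rw [mem_filter]
      exact ⟨mem_univ _, hd1, hdS, hd.1⟩
    rw [hvw, mem_singleton, Prod.mk.injEq] at this
    exact hd.2 (by rw [this.1, this.2])
  have hdisj : ∀ C ∈ F, ∀ C' ∈ F, C ≠ C' → Disjoint (E C) (E C') := by
    intro C hC C' hC' hne
    rw [disjoint_left]
    intro p hp hp'
    exact Set.disjoint_left.1 (hF2 C hC C' hC' hne) (mem_filter.1 hp).2.1 (mem_filter.1 hp').2.1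
  have h1 : 3 * F.card ≤ (F.biUnion E).card := by
    rw [card_biUnion hdisj, mul_comm, ← smul_eq_mul, ← sum_const]
    exact sum_le_sum hE3
  have h2 : (F.biUnion E).card ≤ 3 * S.ncard := by
    have hSf : (univ.filter (· ∈ S)).card = S.ncard := by
      rw [Set.ncard_eq_toFinset_card', Set.toFinset_card, Fintype.card_subtype]
    calc (F.biUnion E).card ≤ ((univ.filter (· ∈ S)).biUnion fun w =>
          (univ.filter (K.Adj w)).image fun v => (v, w)).card := by
          apply card_le_card
          rintro ⟨v, w⟩ h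
          rw [mem_biUnion] at h
          obtain ⟨C, _, h⟩ := h
          have h := (mem_filter.1 h).2
          simp only at h
          rw [mem_biUnion]
          refine ⟨w, mem_filter.2 ⟨mem_univ _, h.2.1⟩, ?_⟩
          rw [mem_image]
          exact ⟨v, mem_filter.2 ⟨mem_univ _, h.2.2.symm⟩, rfl⟩
      _ ≤ ∑ w ∈ univ.filter (· ∈ S), ((univ.filter (K.Adj w)).image fun v => (v, w)).card :=
          card_biUnion_le
      _ ≤ ∑ w ∈ univ.filter (· ∈ S), 3 := by
          apply sum_le_sum
          intro w _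
          exact card_image_le.trans (card_le_three h3 w)
      _ = 3 * S.ncard := by rw [sum_const, smul_eq_mul, hSf, mul_comm]
  omega

end V11253.CP
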