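import Pool.Agent.V11253.CP.Base

/-!
# The universal colouring scheme
-/

set_option autoImplicit false

namespace V11253.CP

def n1 : ℕ := 29771684093661493837779288952619912576551493643907529952927815363359670909614947414743654795060188000212402982574578504538929241295955959556318560674958629179389413119063934963411246556678586888317158043734454988884461744238

def n2 : ℕ := 106630522436412288143192531898666738122674397985663883854549860523189550720038749662305545637757690635273400270933673703176664272459693591397534534403632084636413817419007037317306808965242958612396918137255459017388915307147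

def ph (p t : ℕ) : ℕ := n1 / 6 ^ (16 * p + t) % 6

def ps (p t : ℕ) : ℕ := n2 / 6 ^ (16 * p + t) % 6

def trL (t : ℕ) : List ℕ :=
  if t = 0 then [0, 6, 12]
  else [6 * ((t - 1) / 5), 6 * ((t - 1) / 5) + 1 + (t - 1) % 5,
    6 * ((t - 1) / 5) + 1 + ((t - 1) % 5 + 1) % 5]

def chk : Bool :=
  (List.range 16).all fun s => (List.range 16).all fun t =>
    (trL s).all (fun p => ((trL s).all fun q => p == q || ph p t != ph q t)) &&
    ((trL t).all (fun p => ((trL t).all fun q => p == q || ps p s != ps q s))) &&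
    ((trL s).all fun p => (trL t).all fun q => ph p t != ps q s)

lemma chk_true : chk = true := by decide +kernel

def pc (p : Pt) : ℕ := 6 * p.1.val + match p.2 with
  | none => 0
  | some q => 1 + q.val

def tc (t : Ty) : ℕ := match t with
  | none => 0
  | some (c, q) => 1 + 5 * c.val + q.val

lemma pc_inj : ∀ p q : Pt, pc p = pc q → p = q := by decide +kernel

lemma tc_lt : ∀ t : Ty, tc t < 16 := by decide +kernel

lemma tri_mem : ∀ (t : Ty) (p : Pt), tri t p → pc p ∈ trL (tc t) := by decide +kernel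

lemma spec (S T : Ty) :
    (∀ p q, tri S p → tri S q → p ≠ q → ph (pc p) (tc T) ≠ ph (pc q) (tc T)) ∧
    (∀ p q, tri T p → tri T q → p ≠ q → ps (pc p) (tc S) ≠ ps (pc q) (tc S)) ∧
    (∀ p q, tri S p → tri T q → ph (pc p) (tc T) ≠ ps (pc q) (tc S)) := by
  have h := chk_true
  unfold chk at h
  rw [List.all_eq_true] at h
  have h1 := h (tc S) (List.mem_range.2 (tc_lt S))
  rw [List.all_eq_true] at h1
  have h2 := h1 (tc T) (List.mem_range.2 (tc_lt T))
  rw [Bool.and_eq_true, Bool.and_eq_true] at h2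
  obtain ⟨⟨h3, h4⟩, h5⟩ := h2
  rw [List.all_eq_true] at h3 h4 h5
  refine ⟨?_, ?_, ?_⟩
  · intro p q hp hq hpq he
    have h6 := h3 _ (tri_mem S p hp)
    rw [List.all_eq_true] at h6
    have h7 := h6 _ (tri_mem S q hq)
    simp only [Bool.or_eq_true, beq_iff_eq, bne_iff_ne] at h7
    rcases h7 with h7 | h7
    · exact hpq (pc_inj _ _ h7)
    · exact h7 he
  · intro p q hp hq hpq he
    have h6 := h4 _ (tri_mem T p hp)
    rw [List.all_eq_true] at h6
    have h7 := h6 _ (tri_mem T q hq)
    simp only [Bool.or_eq_true, beq_iff_eq, bne_iff_ne] at h7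
    rcases h7 with h7 | h7
    · exact hpq (pc_inj _ _ h7)
    · exact h7 he
  · intro p q hp hq he
    have h6 := h5 _ (tri_mem S p hp)
    rw [List.all_eq_true] at h6
    have h7 := h6 _ (tri_mem T q hq)
    simp only [bne_iff_ne] at h7
    exact h7 he

lemma ph_lt (p t : ℕ) : ph p t < 6 := Nat.mod_lt _ (by norm_num)

lemma ps_lt (p t : ℕ) : ps p t < 6 := Nat.mod_lt _ (by norm_num)

/-- the product of two labelled graphs -/
theorem prod_colorable {V W : Type} (F : SimpleGraph V) (G : SimpleGraph W)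
    (hF : HasLab F) (hG : HasLab G) : (SimpleGraph.boxProd F G).lineGraph.Colorable 6 := by
  classical
  obtain ⟨l, t, hl⟩ := hF
  obtain ⟨m, s, hm⟩ := hG
  let col : V × W → V × W → Fin 6 := fun a b =>
    if a.2 = b.2 then ⟨ph (pc (l a.1 b.1)) (tc (s a.2)), ph_lt _ _⟩
    else ⟨ps (pc (m a.2 b.2)) (tc (t a.1)), ps_lt _ _⟩
  have hsym : ∀ a b, (SimpleGraph.boxProd F G).Adj a b → col a b = col b a := by
    rintro ⟨a, x⟩ ⟨b, y⟩ h
    rw [SimpleGraph.boxProd_adj] at h
    rcases h with ⟨h1, h2⟩ | ⟨h1, h2⟩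
    · simp only at h1 h2
      subst h2
      simp only [col, if_true, hl.sym _ _ h1]
    · simp only at h1 h2
      subst h2
      have hne : x ≠ y := h1.ne
      simp only [col, hne, hne.symm, if_false, hm.sym _ _ h1]
  have hdist : ∀ a b c, (SimpleGraph.boxProd F G).Adj a b → (SimpleGraph.boxProd F G).Adj a c →
      b ≠ c → col a b ≠ col a c := by
    rintro ⟨a, x⟩ ⟨b, y⟩ ⟨c, z⟩ h h' hne he
    rw [SimpleGraph.boxProd_adj] at h h'
    obtain ⟨s1, s2, s3⟩ := spec (t a) (s x)
    rcases h with ⟨h1, h2⟩ | ⟨h1, h2⟩ <;> rcases h' with ⟨h3, h4⟩ | ⟨h3, h4⟩ <;>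
      simp only at h1 h2 h3 h4 <;> subst h2 <;> subst h4
    · simp only [col, if_true, Fin.mk.injEq] at he
      apply s1 _ _ (hl.on _ _ h1) (hl.on _ _ h3) _ he
      intro h5
      exact hne (by rw [hl.inj _ _ _ h1 h3 h5])
    · have hn : x ≠ z := h3.ne
      simp only [col, if_true, hn, if_false, Fin.mk.injEq] at he
      exact s3 _ _ (hl.on _ _ h1) (hm.on _ _ h3) he
    · have hn : x ≠ y := h1.ne
      simp only [col, if_true, hn, if_false, Fin.mk.injEq] at he
      exact s3 _ _ (hl.on _ _ h3) (hm.on _ _ h1) he.symm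
    · have hn : x ≠ y := h1.ne
      have hn' : x ≠ z := h3.ne
      simp only [col, hn, hn', if_false, Fin.mk.injEq] at he
      apply s2 _ _ (hm.on _ _ h1) (hm.on _ _ h3) _ he
      intro h5
      exact hne (by rw [hm.inj _ _ _ h1 h3 h5])
  let C : Sym2 (V × W) → Fin 6 := fun e =>
    if (SimpleGraph.boxProd F G).Adj e.out.1 e.out.2 then col e.out.1 e.out.2 else 0
  have hC : ∀ a b, (SimpleGraph.boxProd F G).Adj a b → C s(a, b) = col a b := by
    intro a b hab
    have h1 : s((s(a, b) : Sym2 (V × W)).out.1, (s(a, b) : Sym2 (V × W)).out.2) = s(a, b) := by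
      have := (s(a, b) : Sym2 (V × W)).out_eq
      exact this
    rw [Sym2.eq_iff] at h1
    simp only [C]
    rcases h1 with ⟨h1, h2⟩ | ⟨h1, h2⟩
    · rw [h1, h2, if_pos hab]
    · rw [h1, h2, if_pos hab.symm, hsym _ _ hab.symm]
  refine ⟨SimpleGraph.Coloring.mk (fun e => C e.1) ?_⟩
  rintro ⟨e, he⟩ ⟨f, hf⟩ hef
  rw [SimpleGraph.lineGraph_adj_iff_exists] at hef
  obtain ⟨hne, v, hv1, hv2⟩ := hef
  obtain ⟨a, rfl⟩ := Sym2.mem_iff_exists.1 hv1
  obtain ⟨b, rfl⟩ := Sym2.mem_iff_exists.1 hv2
  rw [SimpleGraph.mem_edgeSet] at he hf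
  simp only [hC _ _ he, hC _ _ hf]
  apply hdist _ _ _ he hf
  rintro rfl
  exact hne rfl

end V11253.CP
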