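import Pool.Agent.V11253.CP.Tri

/-!
# Expanding a vertex to a triangle
-/

set_option autoImplicit false
set_option linter.unusedSimpArgs false
set_option linter.unusedSectionVars false

namespace V11253.CP

variable {V : Type}

lemma plain_ext : ∀ oa ob oc : Option (Fin 3), (∀ i, oa = some i → ob ≠ some i) →
    (∀ i, oa = some i → oc ≠ some i) → (∀ i, ob = some i → oc ≠ some i) →
    ∃ pa pb pc : Fin 3, pa ≠ pb ∧ pa ≠ pc ∧ pb ≠ pc ∧ (∀ i, oa = some i → i = pa) ∧
      (∀ i, ob = some i → i = pb) ∧ (∀ i, oc = some i → i = pc) := by decide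

/-- labels on a triangle -/
noncomputable def mt (a b c : V) (pa pb pc : Pt) (u v : V) : Pt :=
  open Classical in
  if (u = a ∧ v = b) ∨ (u = b ∧ v = a) then pc
  else if (u = a ∧ v = c) ∨ (u = c ∧ v = a) then pb else pa

section
variable {a b c : V} (hab : a ≠ b) (hac : a ≠ c) (hbc : b ≠ c) (pa pb pc : Pt)
include hab hac hbc

omit hab hac hbc in
lemma mt_ab : mt a b c pa pb pc a b = pc := by simp [mt]
omit hab hac hbc in
lemma mt_ba : mt a b c pa pb pc b a = pc := by simp [mt]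
lemma mt_ac : mt a b c pa pb pc a c = pb := by simp [mt, hab, hac, hbc, hab.symm, hac.symm, hbc.symm]
lemma mt_ca : mt a b c pa pb pc c a = pb := by simp [mt, hab, hac, hbc, hab.symm, hac.symm, hbc.symm]
lemma mt_bc : mt a b c pa pb pc b c = pa := by simp [mt, hab, hac, hbc, hab.symm, hac.symm, hbc.symm]
lemma mt_cb : mt a b c pa pb pc c b = pa := by simp [mt, hab, hac, hbc, hab.symm, hac.symm, hbc.symm]
end

/-- the lifting lemma for a triangle -/
theorem lift3 {K : SimpleGraph V} {r a b c : V} {T : Set V} (hr : r ∈ T)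
    (hT : ∀ x, x ∈ T ↔ x = a ∨ x = b ∨ x = c)
    (hab : K.Adj a b) (hac : K.Adj a c) (hbc : K.Adj b c)
    (hone : ∀ u ∈ T, ∀ x y, x ∉ T → y ∉ T → K.Adj u x → K.Adj u y → x = y)
    (hdist : ∀ u ∈ T, ∀ v ∈ T, ∀ x, x ∉ T → K.Adj u x → K.Adj v x → u = v)
    {l' : V → V → Pt} {t' : V → Ty} (hl : Lab (con K T r) l' t') (pa pb pc : Pt)
    (ta : tri (t' r) pa) (tb : tri (t' r) pb) (tc : tri (t' r) pc)
    (dab : pa ≠ pb) (dac : pa ≠ pc) (dbc : pb ≠ pc)
    (oa : ∀ x, x ∉ T → K.Adj a x → l' r x ≠ pb ∧ l' r x ≠ pc)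
    (ob : ∀ x, x ∉ T → K.Adj b x → l' r x ≠ pa ∧ l' r x ≠ pc)
    (oc : ∀ x, x ∉ T → K.Adj c x → l' r x ≠ pa ∧ l' r x ≠ pb)
    (ca : ∀ c0 q, t' r = some (c0, q) → ∀ q', q' = q ∨ q' = q + 1 →
      ((c0, some q') = pb ∨ (c0, some q') = pc) ∨ ∃ x, x ∉ T ∧ K.Adj a x ∧ l' r x = (c0, some q'))
    (cb : ∀ c0 q, t' r = some (c0, q) → ∀ q', q' = q ∨ q' = q + 1 →
      ((c0, some q') = pa ∨ (c0, some q') = pc) ∨ ∃ x, x ∉ T ∧ K.Adj b x ∧ l' r x = (c0, some q'))
    (cc : ∀ c0 q, t' r = some (c0, q) → ∀ q', q' = q ∨ q' = q + 1 →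
      ((c0, some q') = pa ∨ (c0, some q') = pb) ∨
        ∃ x, x ∉ T ∧ K.Adj c x ∧ l' r x = (c0, some q')) : HasLab K := by
  have nab := hab.ne
  have nac := hac.ne
  have nbc := hbc.ne
  have e1 := mt_ab (a := a) (b := b) (c := c) pa pb pc
  have e2 := mt_ba (a := a) (b := b) (c := c) pa pb pc
  have e3 := mt_ac nab nac nbc pa pb pc
  have e4 := mt_ca nab nac nbc pa pb pc
  have e5 := mt_bc nab nac nbc pa pb pc
  have e6 := mt_cb nab nac nbc pa pb pc
  have hTa : a ∈ T := (hT a).2 (Or.inl rfl)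
  have hTb : b ∈ T := (hT b).2 (Or.inr (Or.inl rfl))
  have hTc : c ∈ T := (hT c).2 (Or.inr (Or.inr rfl))
  refine lift hr hone hdist hl (mt a b c pa pb pc) ?_ ?_ ?_ ?_ ?_
  · intro u hu v hv huv
    rcases (hT u).1 hu with h | h | h <;> rcases (hT v).1 hv with h' | h' | h' <;> subst h <;>
      subst h' <;> first | exact absurd rfl huv | simp only [e1, e2, e3, e4, e5, e6]
  · intro u hu v hv huv
    rcases (hT u).1 hu with h | h | h <;> rcases (hT v).1 hv with h' | h' | h' <;> subst h <;>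
      subst h' <;> first | exact absurd rfl huv | (simp only [e1, e2, e3, e4, e5, e6]; assumption)
  · intro u hu v hv w hw hvu hwu he
    rcases (hT u).1 hu with h | h | h <;> rcases (hT v).1 hv with h' | h' | h' <;>
      rcases (hT w).1 hw with h'' | h'' | h'' <;> subst h <;>
      subst h' <;> subst h'' <;> first | rfl | exact absurd rfl hvu | exact absurd rfl hwu |
        skip
    all_goals simp only [e1, e2, e3, e4, e5, e6] at he
    all_goals first | exact absurd he dab | exact absurd he dac | exact absurd he dbc | exact absurd he.symm dab | exact absurd he.symm dac | exact absurd he.symm dbc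
  · intro u hu x hx hux v hv hvu
    rcases (hT u).1 hu with h | h | h <;> rcases (hT v).1 hv with h' | h' | h' <;> subst h <;>
      subst h' <;> first | exact absurd rfl hvu | simp only [e1, e2, e3, e4, e5, e6]
    · exact (oa x hx hux).2
    · exact (oa x hx hux).1
    · exact (ob x hx hux).2
    · exact (ob x hx hux).1
    · exact (oc x hx hux).2
    · exact (oc x hx hux).1
  · intro c0 q hq u hu q' hq'
    rcases (hT u).1 hu with h | h | h
    · rw [h]
      rcases ca c0 q hq q' hq' with (h1 | h1) | h1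
      · exact Or.inl ⟨c, hTc, hac, by rw [e3, h1]⟩
      · exact Or.inl ⟨b, hTb, hab, by rw [e1, h1]⟩
      · exact Or.inr h1
    · rw [h]
      rcases cb c0 q hq q' hq' with (h1 | h1) | h1
      · exact Or.inl ⟨c, hTc, hbc, by rw [e5, h1]⟩
      · exact Or.inl ⟨a, hTa, hab.symm, by rw [e2, h1]⟩
      · exact Or.inr h1
    · rw [h]
      rcases cc c0 q hq q' hq' with (h1 | h1) | h1
      · exact Or.inl ⟨b, hTb, hbc.symm, by rw [e6, h1]⟩
      · exact Or.inl ⟨a, hTa, hac.symm, by rw [e4, h1]⟩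
      · exact Or.inr h1

theorem triangle {K : SimpleGraph V} (h3 : Sub3 K) {a b c : V} (hab : K.Adj a b)
    (hac : K.Adj a c) (hbc : K.Adj b c)
    (hout : ∀ u v x, (u = a ∨ u = b ∨ u = c) → (v = a ∨ v = b ∨ v = c) →
      ¬ (x = a ∨ x = b ∨ x = c) → K.Adj u x → K.Adj v x → u = v)
    (h : HasLab (con K {x | x = a ∨ x = b ∨ x = c} a)) : HasLab K := by
  classical
  obtain ⟨l', t', hl⟩ := h
  set T : Set V := {x | x = a ∨ x = b ∨ x = c} with hTdef
  have hT : ∀ x, x ∈ T ↔ x = a ∨ x = b ∨ x = c := fun x => Iff.rfl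
  have hr : a ∈ T := Or.inl rfl
  have hdist : ∀ u ∈ T, ∀ v ∈ T, ∀ x, x ∉ T → K.Adj u x → K.Adj v x → u = v :=
    fun u hu v hv x hx h1 h2 => hout u v x hu hv hx h1 h2
  have hone : ∀ u ∈ T, ∀ x y, x ∉ T → y ∉ T → K.Adj u x → K.Adj u y → x = y := by
    have gen : ∀ u v w : V, v ∈ T → w ∈ T → v ≠ w → K.Adj u v → K.Adj u w →
        ∀ x y, x ∉ T → y ∉ T → K.Adj u x → K.Adj u y → x = y := by
      intro u v w hv hw hvw huv huw x y hx hy hux huy
      rcases h3 u v w x y huv huw hux huy with h | h | h | h | h | h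
      · exact absurd h hvw
      · exact absurd (h ▸ hv) hx
      · exact absurd (h ▸ hv) hy
      · exact absurd (h ▸ hw) hx
      · exact absurd (h ▸ hw) hy
      · exact h
    intro u hu
    rcases hu with rfl | rfl | rfl
    · exact gen _ b c (Or.inr (Or.inl rfl)) (Or.inr (Or.inr rfl)) hbc.ne hab hac
    · exact gen _ a c (Or.inl rfl) (Or.inr (Or.inr rfl)) hac.ne hab.symm hbc
    · exact gen _ a b (Or.inl rfl) (Or.inr (Or.inl rfl)) hab.ne hac.symm hbc.symm
  have hra : ∀ u x, u ∈ T → x ∉ T → K.Adj u x → (con K T a).Adj a x :=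
    fun u x hu hx h => (con_r hr).2 ⟨hx, u, hu, h⟩
  rcases ht : t' a with _ | ⟨c0, q⟩
  · -- plain case
    let o : V → Option (Fin 3) := fun u =>
      if h : ∃ x, x ∉ T ∧ K.Adj u x then some (l' a h.choose).1 else none
    have ho : ∀ u ∈ T, ∀ x, x ∉ T → K.Adj u x → o u = some (l' a x).1 := by
      intro u hu x hx hux
      have h : ∃ x, x ∉ T ∧ K.Adj u x := ⟨x, hx, hux⟩
      have h1 := h.choose_spec
      have h2 := hone u hu _ _ h1.1 hx h1.2 hux
      simp only [o, h, dif_pos, h2]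
    have hpl : ∀ u ∈ T, ∀ x, x ∉ T → K.Adj u x → (l' a x).2 = none := by
      intro u hu x hx hux
      have := hl.on _ _ (hra u x hu hx hux)
      rw [ht] at this
      exact this
    have hod : ∀ u ∈ T, ∀ v ∈ T, u ≠ v → ∀ i, o u = some i → o v ≠ some i := by
      intro u hu v hv huv i h1 h2
      have hx : ∃ x, x ∉ T ∧ K.Adj u x := by
        by_contra hc
        simp only [o, hc, dif_neg, not_false_eq_true] at h1
        exact absurd h1 (by simp)
      have hy : ∃ x, x ∉ T ∧ K.Adj v x := by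
        by_contra hc
        simp only [o, hc, dif_neg, not_false_eq_true] at h2
        exact absurd h2 (by simp)
      obtain ⟨x, hx, hux⟩ := hx
      obtain ⟨y, hy, hvy⟩ := hy
      rw [ho u hu x hx hux] at h1
      rw [ho v hv y hy hvy] at h2
      have h3 : l' a x = l' a y := by
        apply Prod.ext
        · rw [Option.some.inj h1, Option.some.inj h2]
        · rw [hpl u hu x hx hux, hpl v hv y hy hvy]
      have h4 := hl.inj _ _ _ (hra u x hu hx hux) (hra v y hv hy hvy) h3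
      subst h4
      exact huv (hdist u hu v hv x hx hux hvy)
    have hTb : b ∈ T := Or.inr (Or.inl rfl)
    have hTc : c ∈ T := Or.inr (Or.inr rfl)
    obtain ⟨pa, pb, pc, d1, d2, d3, f1, f2, f3⟩ := plain_ext (o a) (o b) (o c)
      (hod a hr b hTb hab.ne) (hod a hr c hTc hac.ne) (hod b hTb c hTc hbc.ne)
    have hpa : ∀ x, x ∉ T → K.Adj a x → l' a x = (pa, none) := fun x hx hax =>
      Prod.ext (f1 _ (ho a hr x hx hax)) (hpl a hr x hx hax)
    have hpb : ∀ x, x ∉ T → K.Adj b x → l' a x = (pb, none) := fun x hx hax =>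
      Prod.ext (f2 _ (ho b hTb x hx hax)) (hpl b hTb x hx hax)
    have hpc : ∀ x, x ∉ T → K.Adj c x → l' a x = (pc, none) := fun x hx hax =>
      Prod.ext (f3 _ (ho c hTc x hx hax)) (hpl c hTc x hx hax)
    have hne : ∀ i j : Fin 3, i ≠ j → ((i, none) : Pt) ≠ (j, none) := by
      intro i j hij h
      rw [Prod.mk.injEq] at h
      exact hij h.1
    refine lift3 hr hT hab hac hbc hone hdist hl (pa, none) (pb, none) (pc, none)
      (by rw [ht]; rfl) (by rw [ht]; rfl) (by rw [ht]; rfl) (hne _ _ d1) (hne _ _ d2)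
      (hne _ _ d3) ?_ ?_ ?_ ?_ ?_ ?_
    · intro x hx hax
      rw [hpa x hx hax]; exact ⟨hne _ _ d1, hne _ _ d2⟩
    · intro x hx hax
      rw [hpb x hx hax]; exact ⟨hne _ _ d1.symm, hne _ _ d3⟩
    · intro x hx hax
      rw [hpc x hx hax]; exact ⟨hne _ _ d2.symm, hne _ _ d3.symm⟩
    all_goals
      intro c0 q hq
      rw [ht] at hq
      exact absurd hq (by simp)
  · obtain ⟨⟨w1, hw1, e1⟩, w2, hw2, e2⟩ := hl.cyc a c0 q ht
    obtain ⟨hw1T, u1, hu1, hu1w⟩ := (con_r hr).1 hw1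
    obtain ⟨hw2T, u2, hu2, hu2w⟩ := (con_r hr).1 hw2
    have hq : q ≠ q + 1 := by
      have : ∀ q : Fin 5, q ≠ q + 1 := by decide
      exact this q
    have hu12 : u1 ≠ u2 := by
      rintro rfl
      have := hone u1 hu1 w1 w2 hw1T hw2T hu1w hu2w
      subst this
      rw [e1, Prod.mk.injEq] at e2
      exact hq (Option.some.inj e2.2)
    have hw : ∃ w ∈ T, w ≠ u1 ∧ w ≠ u2 ∧ ∀ x, x ∈ T ↔ x = u1 ∨ x = u2 ∨ x = w := by
      have n1 := hab.ne
      have n2 := hac.ne
      have n3 := hbc.ne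
      rcases hu1 with rfl | rfl | rfl <;> rcases hu2 with rfl | rfl | rfl
      · exact absurd rfl hu12
      · exact ⟨c, Or.inr (Or.inr rfl), n2.symm, n3.symm, fun x => by rw [hT]⟩
      · exact ⟨b, Or.inr (Or.inl rfl), n1.symm, n3, fun x => by rw [hT]; tauto⟩
      · exact ⟨c, Or.inr (Or.inr rfl), n3.symm, n2.symm, fun x => by rw [hT]; tauto⟩
      · exact absurd rfl hu12
      · exact ⟨a, Or.inl rfl, n1, n2, fun x => by rw [hT]; tauto⟩
      · exact ⟨b, Or.inr (Or.inl rfl), n3, n1.symm, fun x => by rw [hT]; tauto⟩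
      · exact ⟨a, Or.inl rfl, n2, n1, fun x => by rw [hT]; tauto⟩
      · exact absurd rfl hu12
    obtain ⟨w, hwT, hwu1, hwu2, hT'⟩ := hw
    have hadj : ∀ x ∈ T, ∀ y ∈ T, x ≠ y → K.Adj x y := by
      rintro x (rfl | rfl | rfl) y (rfl | rfl | rfl) hxy <;>
        first | exact absurd rfl hxy | assumption | (apply SimpleGraph.Adj.symm; assumption)
    have s0 : ∀ i : Fin 5, ((c0, some i) : Pt) ≠ (c0, none) := by
      intro i h
      rw [Prod.mk.injEq] at h
      exact absurd h.2 (by simp)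
    have s1 : ((c0, some q) : Pt) ≠ (c0, some (q + 1)) := by
      intro h
      rw [Prod.mk.injEq] at h
      exact hq (Option.some.inj h.2)
    have ow : ∀ x, x ∉ T → K.Adj w x → l' a x = (c0, none) := by
      intro x hx hwx
      have hax := hra w x hwT hx hwx
      have h1 := hl.on _ _ hax
      rw [ht] at h1
      obtain ⟨h2, h4⟩ := h1
      rcases h4 with h4 | h4 | h4
      · exact Prod.ext h2 h4
      · exfalso
        have h5 : l' a x = l' a w1 := by rw [e1]; exact Prod.ext h2 h4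
        have h6 := hl.inj _ _ _ hax hw1 h5
        subst h6
        exact hwu1 (hdist w hwT u1 hu1 x hx hwx hu1w)
      · exfalso
        have h5 : l' a x = l' a w2 := by rw [e2]; exact Prod.ext h2 h4
        have h6 := hl.inj _ _ _ hax hw2 h5
        subst h6
        exact hwu2 (hdist w hwT u2 hu2 x hx hwx hu2w)
    have o1 : ∀ x, x ∉ T → K.Adj u1 x → l' a x = (c0, some q) := by
      intro x hx hux
      rw [hone u1 hu1 x w1 hx hw1T hux hu1w, e1]
    have o2 : ∀ x, x ∉ T → K.Adj u2 x → l' a x = (c0, some (q + 1)) := by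
      intro x hx hux
      rw [hone u2 hu2 x w2 hx hw2T hux hu2w, e2]
    -- triangle u1, u2, w with labels opposite: pa (edge u2 w) = q, pb (edge u1 w) = q+1, pc = none
    refine lift3 (a := u1) (b := u2) (c := w) hr hT' (hadj _ hu1 _ hu2 hu12)
      (hadj _ hu1 _ hwT hwu1.symm) (hadj _ hu2 _ hwT hwu2.symm) hone hdist hl
      (c0, some q) (c0, some (q + 1)) (c0, none) ?_ ?_ ?_ s1 (s0 _) (s0 _) ?_ ?_ ?_ ?_ ?_ ?_
    · rw [ht]; exact ⟨rfl, Or.inr (Or.inl rfl)⟩
    · rw [ht]; exact ⟨rfl, Or.inr (Or.inr rfl)⟩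
    · rw [ht]; exact ⟨rfl, Or.inl rfl⟩
    · intro x hx h1
      rw [o1 x hx h1]; exact ⟨s1, s0 _⟩
    · intro x hx h1
      rw [o2 x hx h1]; exact ⟨s1.symm, s0 _⟩
    · intro x hx h1
      rw [ow x hx h1]; exact ⟨(s0 _).symm, (s0 _).symm⟩
    · intro c1 q1 h1 q' hq'
      rw [ht] at h1
      obtain ⟨rfl, rfl⟩ := Prod.mk.inj (Option.some.inj h1)
      rcases hq' with rfl | rfl
      · exact Or.inr ⟨w1, hw1T, hu1w, e1⟩
      · exact Or.inl (Or.inl rfl)
    · intro c1 q1 h1 q' hq'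
      rw [ht] at h1
      obtain ⟨rfl, rfl⟩ := Prod.mk.inj (Option.some.inj h1)
      rcases hq' with rfl | rfl
      · exact Or.inl (Or.inl rfl)
      · exact Or.inr ⟨w2, hw2T, hu2w, e2⟩
    · intro c1 q1 h1 q' hq'
      rw [ht] at h1
      obtain ⟨rfl, rfl⟩ := Prod.mk.inj (Option.some.inj h1)
      rcases hq' with rfl | rfl
      · exact Or.inl (Or.inl rfl)
      · exact Or.inl (Or.inr rfl)

end V11253.CP
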