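import Pool.Agent.V11253.CP.Bridge
import Pool.Agent.V11253.CP.Tri2
import Pool.Agent.V11253.CP.Match
import Pool.Agent.V11253.CP.Cyc
import Pool.Agent.V11253.CP.Table

/-!
# Every subcubic graph has a labelling
-/

set_option autoImplicit false

namespace V11253.CP

variable {V : Type}

theorem deg2 [Finite V] {H : SimpleGraph V} (h2 : D2 H)
    (htri : ∀ x y z, H.Adj x y → H.Adj y z → H.Adj x z → False) :
    ∃ g t, ∀ u, Ok H g t u := by
  classical
  have hcomp : ∀ r : V, ∃ (g : V → V → Pt) (t : V → Ty), ∀ u, H.Reachable r u → Ok H g t u := by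
    intro r
    by_cases hp : ∃ p, H.Reachable r p ∧ ∀ x y, H.Adj p x → H.Adj p y → x = y
    · obtain ⟨p, hrp, hp⟩ := hp
      obtain ⟨g, t, h⟩ := path_case h2 hp
      exact ⟨g, t, fun u hu => h u (hrp.symm.trans hu)⟩
    · push Not at hp
      exact cyc_case h2 htri r (fun u hu => by
        obtain ⟨x, y, hx, hy, hxy⟩ := hp u hu
        exact ⟨x, y, hx, hy, hxy⟩)
  choose g t hg using hcomp
  let rep : V → V := fun u => (H.connectedComponentMk u).out
  have hrep : ∀ u, H.Reachable (rep u) u := by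
    intro u
    apply SimpleGraph.ConnectedComponent.exact
    exact Quot.out_eq _
  have hadj : ∀ u v, H.Adj u v → rep v = rep u := by
    intro u v h
    have : H.connectedComponentMk u = H.connectedComponentMk v :=
      SimpleGraph.ConnectedComponent.sound h.reachable
    simp only [rep, this]
  refine ⟨fun u v => g (rep u) u v, fun u => t (rep u) u, fun u => ?_⟩
  have h := hg (rep u) u (hrep u)
  refine ⟨?_, h.on, h.ne, h.inj, h.two, h.cyc⟩
  intro v hv
  simp only [hadj u v hv]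
  exact h.sym v hv

theorem base [Fintype V] (K : SimpleGraph V) (h3 : Sub3 K)
    (hb : ∀ a b, K.Adj a b → (K.deleteEdges {s(a, b)}).Reachable a b)
    (hT : ∀ a b c, K.Adj a b → K.Adj a c → K.Adj b c → ∃ u v x, (u = a ∨ u = b ∨ u = c) ∧
      (v = a ∨ v = b ∨ v = c) ∧ ¬ (x = a ∨ x = b ∨ x = c) ∧ K.Adj u x ∧ K.Adj v x ∧ u ≠ v) :
    HasLab K := by
  classical
  obtain ⟨M, hM1, hM2, hM3⟩ := cover K h3 hb
  let H : SimpleGraph V :=
    { Adj := fun u v => K.Adj u v ∧ ¬ M.Adj u v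
      symm := ⟨fun u v h => ⟨h.1.symm, fun h' => h.2 h'.symm⟩⟩
      loopless := ⟨fun u h => K.loopless.irrefl u h.1⟩ }
  have hH : ∀ u v, H.Adj u v ↔ K.Adj u v ∧ ¬ M.Adj u v := fun u v => Iff.rfl
  have h2 : D2 H := by
    intro u x y z hx hy hz
    by_contra hcon
    push Not at hcon
    obtain ⟨n1, n2, n3⟩ := hcon
    obtain ⟨w, hw⟩ := hM3 u ⟨x, y, z, hx.1, hy.1, hz.1, n1, n2, n3⟩
    rcases h3 u x y z w hx.1 hy.1 hz.1 (hM2 hw) with h | h | h | h | h | h
    · exact n1 h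
    · exact n2 h
    · exact hx.2 (h ▸ hw)
    · exact n3 h
    · exact hy.2 (h ▸ hw)
    · exact hz.2 (h ▸ hw)
  have htri : ∀ x y z, H.Adj x y → H.Adj y z → H.Adj x z → False := by
    intro x y z hxy hyz hxz
    obtain ⟨u, v, w, hu, hv, hw, huw, hvw, huv⟩ := hT x y z hxy.1 hxz.1 hyz.1
    have key : ∀ u, (u = x ∨ u = y ∨ u = z) → K.Adj u w → M.Adj u w := by
      intro u hu huw
      by_contra hc
      have huH : H.Adj u w := ⟨huw, hc⟩
      apply hw
      rcases hu with rfl | rfl | rfl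
      · rcases h2 _ _ _ _ hxy hxz huH with h | h | h
        · exact absurd h hyz.ne
        · exact Or.inr (Or.inl h.symm)
        · exact Or.inr (Or.inr h.symm)
      · rcases h2 _ _ _ _ hxy.symm hyz huH with h | h | h
        · exact absurd h hxz.ne
        · exact Or.inl h.symm
        · exact Or.inr (Or.inr h.symm)
      · rcases h2 _ _ _ _ hxz.symm hyz.symm huH with h | h | h
        · exact absurd h hxy.ne
        · exact Or.inl h.symm
        · exact Or.inr (Or.inl h.symm)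
    exact huv (hM1 w u v (key u hu huw).symm (key v hv hvw).symm)
  obtain ⟨g, t, hg⟩ := deg2 h2 htri
  let l : V → V → Pt := fun u v => if M.Adj u v then (2, none) else g u v
  have l1 : ∀ u v, M.Adj u v → l u v = (2, none) := fun u v h => by simp only [l, h, if_true]
  have l0 : ∀ u v, ¬ M.Adj u v → l u v = g u v := fun u v h => by simp only [l, h, if_false]
  refine ⟨l, t, ?_, ?_, ?_, ?_⟩
  · intro u v huv
    by_cases h : M.Adj u v
    · rw [l1 _ _ h, l1 _ _ h.symm]
    · rw [l0 _ _ h, l0 _ _ (fun h' => h h'.symm), (hg u).sym v ⟨huv, h⟩]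
  · intro u v huv
    by_cases h : M.Adj u v
    · rw [l1 _ _ h]; exact (hg u).two
    · rw [l0 _ _ h]; exact (hg u).on v ⟨huv, h⟩
  · intro u v w huv huw he
    by_cases h : M.Adj u v <;> by_cases h' : M.Adj u w
    · exact hM1 _ _ _ h h'
    · rw [l1 _ _ h, l0 _ _ h'] at he
      exact absurd he.symm ((hg u).ne w ⟨huw, h'⟩)
    · rw [l0 _ _ h, l1 _ _ h'] at he
      exact absurd he ((hg u).ne v ⟨huv, h⟩)
    · rw [l0 _ _ h, l0 _ _ h'] at he
      exact (hg u).inj v w ⟨huv, h⟩ ⟨huw, h'⟩ he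
  · intro u c q hu
    obtain ⟨⟨x, hx, hx'⟩, y, hy, hy'⟩ := (hg u).cyc c q hu
    exact ⟨⟨x, hx.1, by rw [l0 _ _ hx.2, hx']⟩, y, hy.1, by rw [l0 _ _ hy.2, hy']⟩

/-- number of ordered pairs of adjacent vertices -/
noncomputable def mu [Fintype V] (K : SimpleGraph V) : ℕ :=
  open Classical in (Finset.univ.filter fun p : V × V => K.Adj p.1 p.2).card

lemma mu_lt [Fintype V] {K K' : SimpleGraph V} {a b : V} (h : ∀ u v, K'.Adj u v → K.Adj u v)
    (hab : K.Adj a b) (hab' : ¬ K'.Adj a b) : mu K' < mu K := by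
  classical
  unfold mu
  apply Finset.card_lt_card
  rw [Finset.ssubset_iff_of_subset]
  · exact ⟨(a, b), Finset.mem_filter.2 ⟨Finset.mem_univ _, hab⟩, fun h =>
      hab' (Finset.mem_filter.1 h).2⟩
  · intro p hp
    rw [Finset.mem_filter] at hp ⊢
    exact ⟨hp.1, h _ _ hp.2⟩

lemma mu_con [Fintype V] {K : SimpleGraph V} {T : Set V} {r a b : V} (hr : r ∈ T) (ha : a ∈ T)
    (hb : b ∈ T) (hab : K.Adj a b) : mu (con K T r) < mu K := by
  classical
  unfold mu
  let y : V → V := fun v => if h : ∃ y ∈ T, K.Adj y v then h.choose else v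
  have hy : ∀ v, (∃ y ∈ T, K.Adj y v) → y v ∈ T ∧ K.Adj (y v) v := by
    intro v h
    have := h.choose_spec
    simp only [y, h, dif_pos]
    exact this
  let f : V × V → V × V := fun p =>
    if p.1 ∈ T then (y p.2, p.2) else if p.2 ∈ T then (p.1, y p.1) else p
  have h1 : ∀ p : V × V, (con K T r).Adj p.1 p.2 →
      (p.1 = r ∧ p.2 ∉ T ∧ f p = (y p.2, p.2) ∧ y p.2 ∈ T ∧ K.Adj (y p.2) p.2) ∨
      (p.2 = r ∧ p.1 ∉ T ∧ f p = (p.1, y p.1) ∧ y p.1 ∈ T ∧ K.Adj p.1 (y p.1)) ∨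
      (p.1 ∉ T ∧ p.2 ∉ T ∧ f p = p ∧ K.Adj p.1 p.2) := by
    rintro ⟨u, v⟩ (⟨h1, h2, h3⟩ | ⟨h1, h2, _, h3⟩ | ⟨h1, h2, _, h3⟩)
    · simp only at h1 h2 h3
      exact Or.inr (Or.inr ⟨h2, h3, by simp only [f, h2, h3, if_false], h1⟩)
    · simp only at h1 h2 h3
      subst h1
      exact Or.inl ⟨rfl, h2, by simp only [f, hr, if_true], hy _ h3⟩
    · simp only at h1 h2 h3
      subst h1
      refine Or.inr (Or.inl ⟨rfl, h2, by simp only [f, h2, hr, if_false, if_true], (hy _ h3).1,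
        (hy _ h3).2.symm⟩)
  calc (Finset.univ.filter fun p : V × V => (con K T r).Adj p.1 p.2).card
      ≤ (Finset.univ.filter fun p : V × V => K.Adj p.1 p.2 ∧ ¬ (p.1 ∈ T ∧ p.2 ∈ T)).card := by
        apply Finset.card_le_card_of_injOn f
        · intro p hp
          have hp := (Finset.mem_filter.1 (Finset.mem_coe.1 hp)).2
          apply Finset.mem_coe.2
          rw [Finset.mem_filter]
          refine ⟨Finset.mem_univ _, ?_⟩
          rcases h1 p hp with ⟨_, h3, h4, h5, h6⟩ | ⟨_, h3, h4, h5, h6⟩ | ⟨h3, h4, h5, h6⟩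
          · rw [h4]; exact ⟨h6, fun h => h3 h.2⟩
          · rw [h4]; exact ⟨h6, fun h => h3 h.1⟩
          · rw [h5]; exact ⟨h6, fun h => h3 h.1⟩
        · rintro ⟨u, v⟩ hp ⟨u', v'⟩ hp' he
          have hp := (Finset.mem_filter.1 (Finset.mem_coe.1 hp)).2
          have hp' := (Finset.mem_filter.1 (Finset.mem_coe.1 hp')).2
          rcases h1 _ hp with ⟨e1, e2, e3, e4, e5⟩ | ⟨e1, e2, e3, e4, e5⟩ | ⟨e1, e2, e3, e4⟩ <;>
          rcases h1 _ hp' with ⟨k1, k2, k3, k4, k5⟩ | ⟨k1, k2, k3, k4, k5⟩ | ⟨k1, k2, k3, k4⟩ <;>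
            rw [e3, k3, Prod.mk.injEq] at he <;> obtain ⟨he1, he2⟩ := he <;>
            simp only at e1 e2 e4 k1 k2 k4 he1 he2
          · rw [e1, k1, he2]
          · exact absurd (he2 ▸ k4) e2
          · exact absurd (he1 ▸ e4) k1
          · exact absurd (he2 ▸ e4) k2
          · rw [e1, k1, he1]
          · exact absurd (he2 ▸ e4) k2
          · exact absurd (he1 ▸ k4) e1
          · exact absurd (he2 ▸ k4) e2
          · rw [he1, he2]
    _ < _ := by
        apply Finset.card_lt_card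
        rw [Finset.ssubset_iff_of_subset]
        · refine ⟨(a, b), Finset.mem_filter.2 ⟨Finset.mem_univ _, hab⟩, fun h => ?_⟩
          exact (Finset.mem_filter.1 h).2.2 ⟨ha, hb⟩
        · intro p hp
          rw [Finset.mem_filter] at hp ⊢
          exact ⟨hp.1, hp.2.1⟩

lemma sub3_con {K : SimpleGraph V} (h3 : Sub3 K) {a b c : V} (hab : K.Adj a b)
    (hac : K.Adj a c) (hbc : K.Adj b c) : Sub3 (con K {x | x = a ∨ x = b ∨ x = c} a) := by
  classical
  set T : Set V := {x | x = a ∨ x = b ∨ x = c} with hTdef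
  have hr : a ∈ T := Or.inl rfl
  have hone : ∀ u ∈ T, ∀ x y, x ∉ T → y ∉ T → K.Adj u x → K.Adj u y → x = y := by
    have gen : ∀ u v w : V, v ∈ T → w ∈ T → v ≠ w → K.Adj u v → K.Adj u w →
        ∀ x y, x ∉ T → y ∉ T → K.Adj u x → K.Adj u y → x = y := by
      intro u v w hv hw hvw huv huw x y hx hy hux huy
      rcases h3 u v w x y huv huw hux huy with h | h | h | h | h | h
      · exact absurd h hvw
      · exact absurd (h ▸ hv) hx
      · exact absurd (h ▸ hv) hy
      · exact absurd (h ▸ hw) hx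
      · exact absurd (h ▸ hw) hy
      · exact h
    intro u hu
    rcases hu with rfl | rfl | rfl
    · exact gen _ b c (Or.inr (Or.inl rfl)) (Or.inr (Or.inr rfl)) hbc.ne hab hac
    · exact gen _ a c (Or.inl rfl) (Or.inr (Or.inr rfl)) hac.ne hab.symm hbc
    · exact gen _ a b (Or.inl rfl) (Or.inr (Or.inl rfl)) hab.ne hac.symm hbc.symm
  intro u x y z w hx hy hz hw
  by_cases hu : u ∈ T
  · have hur : u = a := by
      rcases hx with ⟨_, h, _⟩ | ⟨h, _⟩ | ⟨_, h, _⟩
      · exact absurd hu h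
      · exact h
      · exact absurd hu h
    subst hur
    obtain ⟨x0, x', x1, x2⟩ := (con_r hr).1 hx
    obtain ⟨y0, y', y1, y2⟩ := (con_r hr).1 hy
    obtain ⟨z0, z', z1, z2⟩ := (con_r hr).1 hz
    obtain ⟨w0, w', w1, w2⟩ := (con_r hr).1 hw
    have hpig : x' = y' ∨ x' = z' ∨ x' = w' ∨ y' = z' ∨ y' = w' ∨ z' = w' := by
      rcases x1 with h1 | h1 | h1 <;> rcases y1 with h2 | h2 | h2 <;>
        rcases z1 with h4 | h4 | h4 <;> rcases w1 with h5 | h5 | h5 <;>
        rw [h1, h2, h4, h5] <;> simp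
    rcases hpig with h | h | h | h | h | h
    · subst h; exact Or.inl (hone _ x1 _ _ x0 y0 x2 y2)
    · subst h; exact Or.inr (Or.inl (hone _ x1 _ _ x0 z0 x2 z2))
    · subst h; exact Or.inr (Or.inr (Or.inl (hone _ x1 _ _ x0 w0 x2 w2)))
    · subst h; exact Or.inr (Or.inr (Or.inr (Or.inl (hone _ y1 _ _ y0 z0 y2 z2))))
    · subst h; exact Or.inr (Or.inr (Or.inr (Or.inr (Or.inl (hone _ y1 _ _ y0 w0 y2 w2)))))
    · subst h; exact Or.inr (Or.inr (Or.inr (Or.inr (Or.inr (hone _ z1 _ _ z0 w0 z2 w2)))))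
  · have hn : ∀ x, (con K T a).Adj u x →
        ∃ x', K.Adj u x' ∧ ((x ∉ T ∧ x' = x) ∨ (x = a ∧ x' ∈ T)) := by
      rintro x (⟨h1, _, h2⟩ | ⟨h, _⟩ | ⟨h1, _, _, y, h2, h4⟩)
      · exact ⟨x, h1, Or.inl ⟨h2, rfl⟩⟩
      · exact absurd (h ▸ hr) hu
      · exact ⟨y, h4.symm, Or.inr ⟨h1, h2⟩⟩
    have heq : ∀ x y x' y', ((x ∉ T ∧ x' = x) ∨ (x = a ∧ x' ∈ T)) →
        ((y ∉ T ∧ y' = y) ∨ (y = a ∧ y' ∈ T)) → x' = y' → x = y := by
      rintro x y x' y' (⟨h1, h2⟩ | ⟨h1, h2⟩) (⟨h4, h5⟩ | ⟨h4, h5⟩) h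
      · rw [← h2, ← h5, h]
      · rw [h2] at h; exact absurd (h ▸ h5) h1
      · rw [h5] at h; exact absurd (h ▸ h2) h4
      · rw [h1, h4]
    obtain ⟨x', x1, x2⟩ := hn x hx
    obtain ⟨y', y1, y2⟩ := hn y hy
    obtain ⟨z', z1, z2⟩ := hn z hz
    obtain ⟨w', w1, w2⟩ := hn w hw
    rcases h3 u x' y' z' w' x1 y1 z1 w1 with h | h | h | h | h | h
    · exact Or.inl (heq _ _ _ _ x2 y2 h)
    · exact Or.inr (Or.inl (heq _ _ _ _ x2 z2 h))
    · exact Or.inr (Or.inr (Or.inl (heq _ _ _ _ x2 w2 h)))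
    · exact Or.inr (Or.inr (Or.inr (Or.inl (heq _ _ _ _ y2 z2 h))))
    · exact Or.inr (Or.inr (Or.inr (Or.inr (Or.inl (heq _ _ _ _ y2 w2 h)))))
    · exact Or.inr (Or.inr (Or.inr (Or.inr (Or.inr (heq _ _ _ _ z2 w2 h)))))

/-- every finite graph of maximum degree at most three has a labelling -/
theorem exists_lab [Fintype V] (n : ℕ) :
    ∀ K : SimpleGraph V, Sub3 K → mu K = n → HasLab K := by
  induction n using Nat.strong_induction_on with
  | _ n ih =>
    intro K h3 hn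
    by_cases hb : ∀ a b, K.Adj a b → (K.deleteEdges {s(a, b)}).Reachable a b
    · by_cases hT : ∀ a b c, K.Adj a b → K.Adj a c → K.Adj b c → ∃ u v x,
          (u = a ∨ u = b ∨ u = c) ∧ (v = a ∨ v = b ∨ v = c) ∧ ¬ (x = a ∨ x = b ∨ x = c) ∧
            K.Adj u x ∧ K.Adj v x ∧ u ≠ v
      · exact base K h3 hb hT
      · push Not at hT
        obtain ⟨a, b, c, hab, hac, hbc, hT⟩ := hT
        refine triangle h3 hab hac hbc ?_ ?_
        · intro u v x hu hv hx hux hvx
          exact hT u v x hu hv (by push Not at hx; exact hx) hux hvx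
        · refine ih _ ?_ _ (sub3_con h3 hab hac hbc) rfl
          rw [← hn]
          exact mu_con (T := {x | x = a ∨ x = b ∨ x = c}) (Or.inl rfl) (Or.inl rfl)
            (Or.inr (Or.inl rfl)) hab
    · push Not at hb
      obtain ⟨a, b, hab, hb⟩ := hb
      refine bridge hab h3 hb (ih _ ?_ _ ?_ rfl)
      · rw [← hn]
        apply mu_lt _ hab
        · rw [SimpleGraph.deleteEdges_adj]
          exact fun h => h.2 rfl
        · intro u v h
          exact ((SimpleGraph.deleteEdges_adj).1 h).1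
      · intro u x y z w hx hy hz hw
        exact h3 u x y z w ((SimpleGraph.deleteEdges_adj).1 hx).1
          ((SimpleGraph.deleteEdges_adj).1 hy).1 ((SimpleGraph.deleteEdges_adj).1 hz).1
          ((SimpleGraph.deleteEdges_adj).1 hw).1

/-- the product of two cubic graphs has a proper 6-edge-colouring -/
theorem cubic_prod {m n : ℕ} (F : SimpleGraph (Fin m)) (G : SimpleGraph (Fin n))
    (hF : ∀ v, (F.neighborSet v).ncard = 3) (hG : ∀ v, (G.neighborSet v).ncard = 3) :
    (SimpleGraph.boxProd F G).lineGraph.Colorable 6 := by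
  have key : ∀ (k : ℕ) (K : SimpleGraph (Fin k)), (∀ v, (K.neighborSet v).ncard = 3) →
      HasLab K := by
    intro k K hK
    refine exists_lab _ K ?_ rfl
    intro u a b c d ha hb hc hd
    by_contra hcon
    push Not at hcon
    obtain ⟨h1, h2, h3, h4, h5, h6⟩ := hcon
    have h7 : ({a, b, c, d} : Set (Fin k)) ⊆ K.neighborSet u := by
      rintro x (rfl | rfl | rfl | rfl)
      · exact ha
      · exact hb
      · exact hc
      · exact hd
    have h8 := Set.ncard_le_ncard h7 (Set.toFinite _)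
    rw [hK, Set.ncard_insert_of_notMem (by simp [h1, h2, h3]) (Set.toFinite _),
      Set.ncard_insert_of_notMem (by simp [h4, h5]) (Set.toFinite _),
      Set.ncard_pair h6] at h8
    omega
  exact prod_colorable F G (key m F hF) (key n G hG)

end V11253.CP
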