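import Pool.Agent.V11253.CP.Base

/-!
# Contracting a triangle
-/

set_option autoImplicit false

namespace V11253.CP

variable {V : Type}

/-- contraction of the vertex set `T` to its element `r` -/
def con (K : SimpleGraph V) (T : Set V) (r : V) : SimpleGraph V where
  Adj u v := (K.Adj u v ∧ u ∉ T ∧ v ∉ T) ∨ (u = r ∧ v ∉ T ∧ r ∈ T ∧ ∃ y ∈ T, K.Adj y v) ∨
    (v = r ∧ u ∉ T ∧ r ∈ T ∧ ∃ y ∈ T, K.Adj y u)
  symm := by
    constructor
    rintro u v (⟨h1, h2, h3⟩ | h | h)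
    · exact Or.inl ⟨h1.symm, h3, h2⟩
    · exact Or.inr (Or.inr h)
    · exact Or.inr (Or.inl h)
  loopless := by
    constructor
    rintro u (⟨h1, _, _⟩ | ⟨rfl, h2, h3, _⟩ | ⟨rfl, h2, h3, _⟩)
    · exact K.loopless.irrefl _ h1
    · exact h2 h3
    · exact h2 h3

lemma con_out {K : SimpleGraph V} {T : Set V} {r u v : V} (hr : r ∈ T) (hu : u ∉ T) (hv : v ∉ T) :
    (con K T r).Adj u v ↔ K.Adj u v := by
  constructor
  · rintro (h | ⟨rfl, _⟩ | ⟨rfl, _⟩)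
    · exact h.1
    · exact absurd hr hu
    · exact absurd hr hv
  · intro h
    exact Or.inl ⟨h, hu, hv⟩

lemma con_r {K : SimpleGraph V} {T : Set V} {r v : V} (hr : r ∈ T) :
    (con K T r).Adj r v ↔ v ∉ T ∧ ∃ y ∈ T, K.Adj y v := by
  constructor
  · rintro (⟨_, h, _⟩ | ⟨_, h1, _, h2⟩ | ⟨_, h, _⟩)
    · exact absurd hr h
    · exact ⟨h1, h2⟩
    · exact absurd hr h
  · rintro ⟨h1, h2⟩
    exact Or.inr (Or.inl ⟨rfl, h1, hr, h2⟩)

theorem lift {K : SimpleGraph V} {T : Set V} {r : V} (hr : r ∈ T)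
    (hone : ∀ u ∈ T, ∀ x y, x ∉ T → y ∉ T → K.Adj u x → K.Adj u y → x = y)
    (hdist : ∀ u ∈ T, ∀ v ∈ T, ∀ x, x ∉ T → K.Adj u x → K.Adj v x → u = v)
    {l' : V → V → Pt} {t' : V → Ty} (hl : Lab (con K T r) l' t') (m : V → V → Pt)
    (H1 : ∀ u ∈ T, ∀ v ∈ T, u ≠ v → m u v = m v u)
    (H2 : ∀ u ∈ T, ∀ v ∈ T, u ≠ v → tri (t' r) (m u v))
    (H3 : ∀ u ∈ T, ∀ v ∈ T, ∀ w ∈ T, v ≠ u → w ≠ u → m u v = m u w → v = w)
    (H4 : ∀ u ∈ T, ∀ x, x ∉ T → K.Adj u x → ∀ v ∈ T, v ≠ u → l' r x ≠ m u v)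
    (H5 : ∀ c q, t' r = some (c, q) → ∀ u ∈ T, ∀ q', q' = q ∨ q' = q + 1 →
      (∃ v ∈ T, K.Adj u v ∧ m u v = (c, some q')) ∨
        ∃ x, x ∉ T ∧ K.Adj u x ∧ l' r x = (c, some q')) : HasLab K := by
  classical
  let l : V → V → Pt := fun u v =>
    if u ∈ T then (if v ∈ T then m u v else l' r v) else (if v ∈ T then l' u r else l' u v)
  let t : V → Ty := fun u => if u ∈ T then t' r else t' u
  have l11 : ∀ u v, u ∈ T → v ∈ T → l u v = m u v := fun u v h h' => by simp [l, h, h']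
  have l10 : ∀ u v, u ∈ T → v ∉ T → l u v = l' r v := fun u v h h' => by simp [l, h, h']
  have l01 : ∀ u v, u ∉ T → v ∈ T → l u v = l' u r := fun u v h h' => by simp [l, h, h']
  have l00 : ∀ u v, u ∉ T → v ∉ T → l u v = l' u v := fun u v h h' => by simp [l, h, h']
  have t1 : ∀ u, u ∈ T → t u = t' r := fun u h => by simp [t, h]
  have t0 : ∀ u, u ∉ T → t u = t' u := fun u h => by simp [t, h]
  have hra : ∀ u x, u ∈ T → x ∉ T → K.Adj u x → (con K T r).Adj r x :=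
    fun u x hu hx h => (con_r hr).2 ⟨hx, u, hu, h⟩
  refine ⟨l, t, ?_, ?_, ?_, ?_⟩
  · intro u v huv
    by_cases hu : u ∈ T <;> by_cases hv : v ∈ T
    · rw [l11 _ _ hu hv, l11 _ _ hv hu, H1 u hu v hv huv.ne]
    · rw [l10 _ _ hu hv, l01 _ _ hv hu, hl.sym _ _ (hra u v hu hv huv)]
    · rw [l01 _ _ hu hv, l10 _ _ hv hu, hl.sym _ _ (hra v u hv hu huv.symm).symm]
    · rw [l00 _ _ hu hv, l00 _ _ hv hu, hl.sym _ _ ((con_out hr hu hv).2 huv)]
  · intro u v huv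
    by_cases hu : u ∈ T <;> by_cases hv : v ∈ T
    · rw [l11 _ _ hu hv, t1 _ hu]; exact H2 u hu v hv huv.ne
    · rw [l10 _ _ hu hv, t1 _ hu]; exact hl.on _ _ (hra u v hu hv huv)
    · rw [l01 _ _ hu hv, t0 _ hu]; exact hl.on _ _ (hra v u hv hu huv.symm).symm
    · rw [l00 _ _ hu hv, t0 _ hu]; exact hl.on _ _ ((con_out hr hu hv).2 huv)
  · intro u v w huv huw he
    by_cases hu : u ∈ T <;> by_cases hv : v ∈ T <;> by_cases hw : w ∈ T
    · rw [l11 _ _ hu hv, l11 _ _ hu hw] at he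
      exact H3 u hu v hv w hw huv.ne' huw.ne' he
    · rw [l11 _ _ hu hv, l10 _ _ hu hw] at he
      exact absurd he.symm (H4 u hu w hw huw v hv huv.ne')
    · rw [l10 _ _ hu hv, l11 _ _ hu hw] at he
      exact absurd he (H4 u hu v hv huv w hw huw.ne')
    · exact hone u hu v w hv hw huv huw
    · exact hdist v hv w hw u hu huv.symm huw.symm
    · rw [l01 _ _ hu hv, l00 _ _ hu hw] at he
      have := hl.inj _ _ _ (hra v u hv hu huv.symm).symm ((con_out hr hu hw).2 huw) he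
      exact absurd (this ▸ hr) hw
    · rw [l00 _ _ hu hv, l01 _ _ hu hw] at he
      have := hl.inj _ _ _ ((con_out hr hu hv).2 huv) (hra w u hw hu huw.symm).symm he
      exact absurd (this ▸ hr) hv
    · rw [l00 _ _ hu hv, l00 _ _ hu hw] at he
      exact hl.inj _ _ _ ((con_out hr hu hv).2 huv) ((con_out hr hu hw).2 huw) he
  · intro u c q hu
    have key : ∀ q', q' = q ∨ q' = q + 1 → ∃ w, K.Adj u w ∧ l u w = (c, some q') := by
      intro q' hq'
      by_cases huT : u ∈ T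
      · rw [t1 _ huT] at hu
        rcases H5 c q hu u huT q' hq' with ⟨v, hv, huv, h⟩ | ⟨x, hx, hux, h⟩
        · exact ⟨v, huv, by rw [l11 _ _ huT hv, h]⟩
        · exact ⟨x, hux, by rw [l10 _ _ huT hx, h]⟩
      · rw [t0 _ huT] at hu
        obtain ⟨h1, h2⟩ := hl.cyc u c q hu
        have h3 : ∃ w, (con K T r).Adj u w ∧ l' u w = (c, some q') := by
          rcases hq' with rfl | rfl
          · exact h1
          · exact h2
        obtain ⟨w, hw, hw'⟩ := h3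
        rcases hw with ⟨h4, _, h5⟩ | ⟨rfl, _⟩ | ⟨rfl, _, _, y, hy, hyu⟩
        · exact ⟨w, h4, by rw [l00 _ _ huT h5, hw']⟩
        · exact absurd hr huT
        · exact ⟨y, hyu.symm, by rw [l01 _ _ huT hy, hw']⟩
    exact ⟨key q (Or.inl rfl), key (q + 1) (Or.inr rfl)⟩

end V11253.CP
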